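import Mathlib
import Pool.Agent.Helper92.IMP.Fml
import Pool.Agent.Helper92.IMP.Mono

set_option autoImplicit false

namespace Pool.Agent.Results.MP_b9c7f5_lc.NPHardThreshold

open SimpleGraph Pool.Agent.Helper63.Imp Pool.Agent.Helper92.IMP

/-- The floor in the reduction is an exact division for rational thresholds. -/
theorem floor_eq (a b k r q : ℕ) (hb : 0 < b) :
    ⌊2 * (q : ℝ) * (((a : ℝ) / b) * (2 * k / (2 * k + 1)) / (5 / 4) ^ r)⌋₊ =
      q * (4 * a * k * 4 ^ r) / (b * (2 * k + 1) * 5 ^ r) := by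
  have hb' : (b : ℝ) ≠ 0 := by exact_mod_cast hb.ne'
  have hk : (2 * (k : ℝ) + 1) ≠ 0 := by positivity
  have h5 : ((5 : ℝ) ^ r) ≠ 0 := by positivity
  have h4 : ((4 : ℝ) ^ r) ≠ 0 := by positivity
  have h : 2 * (q : ℝ) * (((a : ℝ) / b) * (2 * k / (2 * k + 1)) / (5 / 4) ^ r) =
      ((q * (4 * a * k * 4 ^ r) : ℕ) : ℝ) / ((b * (2 * k + 1) * 5 ^ r : ℕ) : ℝ) := by
    push_cast
    rw [div_pow]
    field_simp
    ring
  rw [h, Nat.floor_div_eq_div]

/-- Deciding `imp ≤ t` is NP-hard for every real `t > 1`. For some `k ≥ 2`, colourability with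
`2 k + 1` colours reduces to it in polynomial time on a Turing machine: by a truth table with
polynomially many queries for every real `t`, and by a many-one reduction if `t` is rational. -/
theorem result (t : ℝ) (ht : 1 < t) :
    ∃ k : ℕ, 2 ≤ k ∧
      (∃ (R : ℕ × FinGraph → FinGraph) (P : Polynomial ℕ),
        Nonempty (Turing.TM2ComputableInPolyTime encPair encGraph R) ∧
        ∀ (N : ℕ) (G : SimpleGraph (Fin N)), G.Colorable (2 * k + 1) ↔
          ∀ j, j < P.eval N → imp (R (j, ⟨N, ⊥⟩)).2 ≤ t → imp (R (j, ⟨N, G⟩)).2 ≤ t) ∧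
      ∀ s : ℚ, (s : ℝ) = t → ∃ F : FinGraph → FinGraph,
        Nonempty (Turing.TM2ComputableInPolyTime encGraph encGraph F) ∧
        ∀ (N : ℕ) (G : SimpleGraph (Fin N)), G.Colorable (2 * k + 1) ↔
          imp (F ⟨N, G⟩).2 ≤ t := by
  obtain ⟨k, r, hk, h⟩ := reduction t ht
  refine ⟨k, hk, ⟨fun x => outR k r (2 * qq k x.2.1 + x.1) x.2,
    Polynomial.C k * (Polynomial.X + Polynomial.X * (Polynomial.X * Polynomial.C (2 * k - 2))) + 1,
    F.outR_poly k r, fun N G => ?_⟩, fun s hs => ?_⟩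
  · have h1 := table (k := k) (r := r) (t := t) G fun G => (h N G (qq k N) rfl).2
    rw [h1]
    have h2 : Polynomial.eval N (Polynomial.C k * (Polynomial.X + Polynomial.X *
        (Polynomial.X * Polynomial.C (2 * k - 2))) + 1) = qq k N := by
      simp only [Polynomial.eval_add, Polynomial.eval_mul, Polynomial.eval_C, Polynomial.eval_X,
        Polynomial.eval_one]
      rfl
    rw [h2]
    simp only [outR_imp]
  · have hs1 : (1 : ℝ) < (s : ℝ) := by rw [hs]; exact ht
    have ht' : (1 : ℚ) < s := by exact_mod_cast hs1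
    have hb : 0 < s.den := s.den_pos
    have ha : t = ((s.num.toNat : ℕ) : ℝ) / (s.den : ℝ) := by
      have h0 : 0 ≤ s.num := by
        rw [Rat.num_nonneg]
        linarith
      have h1 : ((s.num.toNat : ℕ) : ℤ) = s.num := Int.toNat_of_nonneg h0
      have h2 : ((s.num.toNat : ℕ) : ℝ) = (s.num : ℝ) := by exact_mod_cast h1
      rw [h2, ← hs]
      exact_mod_cast (Rat.num_div_den s).symm
    have hW : 0 < s.den * (2 * k + 1) * 5 ^ r := by positivity
    refine ⟨fun G => outR k r (pp k (4 * s.num.toNat * k * 4 ^ r) (s.den * (2 * k + 1) * 5 ^ r) G.1)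
      G, F.outG_poly k r _ _ hW, fun N G => ?_⟩
    have h1 := (h N G (qq k N) rfl).1
    have h2 : ⌊2 * ((qq k N : ℕ) : ℝ) * (t * (2 * k / (2 * k + 1)) / (5 / 4) ^ r)⌋₊ =
        pp k (4 * s.num.toNat * k * 4 ^ r) (s.den * (2 * k + 1) * 5 ^ r) N := by
      conv_lhs => rw [ha]
      rw [floor_eq _ _ _ _ _ hb]
      rfl
    rw [h2] at h1
    rw [h1, outR_imp]

end Pool.Agent.Results.MP_b9c7f5_lc.NPHardThreshold
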