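import Mathlib
import Pool.Agent.Helper63.ImpLit

set_option autoImplicit false

namespace Pool.Agent.Results.MP_b9c7f5_lc.NoAlgorithm

open SimpleGraph Pool.Agent.Helper63.Imp

/-- The real thresholds `t` for which no algorithm at all decides `imp ≤ t` are dense above
one. -/
theorem result (a b : ℝ) (ha : 1 ≤ a) (hab : a < b) : ∃ t : ℝ, a < t ∧ t < b ∧
    ¬ ComputablePred fun c : ℕ × List (ℕ × ℕ) => imp (graphOf c) ≤ t :=
  exists_undecidable ha hab

end Pool.Agent.Results.MP_b9c7f5_lc.NoAlgorithm
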